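import Pool.Agent.H93.EG.Targets

/-!
Row A_AQ of the board eg_modules (`MP_009700_an`): Bessel's inequality for the modes of the
derivatives along and orthogonal to the direction.
-/

set_option autoImplicit false

namespace Pool.Agent.H33.EG

open MeasureTheory Set Metric Filter Topology Pool.Agent.H93.EG
open Pool.Agent.H93.BL hiding T_B1 T_B2 T_B3 T_SB T_SC
open Pool.Agent.H93.EN

/-- truncation to the unit circle -/
noncomputable def AQ_tr (g : ℂ → ℝ) (w : ℂ) : ℝ := if ‖w‖ = 1 then g w else 0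

lemma AQ_tr_circle (g : ℂ → ℝ) (θ : ℝ) :
    AQ_tr g (Complex.exp ((θ : ℂ) * Complex.I)) = g (Complex.exp ((θ : ℂ) * Complex.I)) :=
  if_pos (Complex.norm_exp_ofReal_mul_I θ)

lemma AQ_md (g : ℂ → ℝ) (k : ℤ) : md (AQ_tr g) k = md g k := by
  unfold md
  simp only [AQ_tr_circle]

lemma AQ_av_sq (g : ℂ → ℝ) : av (fun w => AQ_tr g w ^ 2) = av (fun w => g w ^ 2) := by
  unfold av
  simp only [AQ_tr_circle]

/-- Bessel's inequality for functions which are bounded on the circle -/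
lemma AQ_bessel (h1 : Pool.Agent.H93.EN.T_B1) (g : ℂ → ℝ) (hg : Measurable g) (C : ℝ)
    (hC : ∀ w, ‖w‖ = 1 → |g w| ≤ C) (s : Finset ℤ) :
    ∑ k ∈ s, ‖md g k‖ ^ 2 ≤ av fun w => g w ^ 2 := by
  have h := h1 (AQ_tr g) (Measurable.ite (measurable_norm (measurableSet_singleton 1)) hg
    measurable_const) ⟨max C 0, fun w => by
      unfold AQ_tr
      by_cases hw : ‖w‖ = 1
      · rw [if_pos hw]
        exact (hC w hw).trans (le_max_left _ _)
      · rw [if_neg hw, abs_zero]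
        exact le_max_right _ _⟩ s
  simp only [AQ_md, AQ_av_sq] at h
  exact h

/-- optimisation of the parameter in the inequality between the means -/
lemma AQ_opt (S a b : ℝ) (ha : 0 ≤ a) (hb : 0 ≤ b)
    (h : ∀ l : ℝ, 0 < l → 2 * S * l ≤ l ^ 2 * a + b) : S ≤ √a * √b := by
  rcases le_or_gt S 0 with hS | hS
  · exact hS.trans (by positivity)
  · have h1 : ∀ x : ℝ, 0 ≤ a * (x * x) + (-(2 * S)) * x + b := by
      intro x
      rcases lt_or_ge 0 x with hx | hx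
      · have := h x hx
        nlinarith
      · have h2 : 0 ≤ a * (x * x) := mul_nonneg ha (mul_self_nonneg x)
        have h3 : 0 ≤ S * (-x) := mul_nonneg hS.le (by linarith)
        nlinarith
    have h2 := discrim_le_zero h1
    unfold discrim at h2
    rw [← Real.sqrt_mul ha]
    apply Real.le_sqrt_of_sq_le
    nlinarith

/-- (AQ) Bessel's inequality for the modes of the derivatives -/
theorem aq (h1 : T_B1) (h2 : T_AB) : T_AQ := by
  intro ι P δ G N hδ hS s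
  obtain ⟨hvol, hΩm, C, hC0, hAB⟩ := h2 ι P δ G N hδ hS
  obtain ⟨B, hB⟩ := hS.bN
  have hNm : ∀ x, Measurable (N x) := fun x =>
    hS.mN.comp (measurable_const.prodMk measurable_id)
  have hcj : Measurable (fun w : ℂ => (starRingEnd ℂ) w) := Complex.continuous_conj.measurable
  have hnorm : ∀ x w, ‖w‖ = 1 → ‖N x w * (starRingEnd ℂ) w‖ ≤ B := by
    intro x w hw
    rw [norm_mul, RCLike.norm_conj, hw, mul_one]
    exact hB x w
  have bg : ∀ x, ∑ k ∈ s, ‖md (gN N x) k‖ ^ 2 ≤ av fun w => gN N x w ^ 2 := fun x =>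
    AQ_bessel h1 (gN N x) (Complex.measurable_re.comp ((hNm x).mul hcj)) B
      (fun w hw => (Complex.abs_re_le_norm _).trans (hnorm x w hw)) s
  have bh : ∀ x, ∑ k ∈ s, ‖md (hN N x) k‖ ^ 2 ≤ av fun w => hN N x w ^ 2 := fun x =>
    AQ_bessel h1 (hN N x) (Complex.measurable_im.comp ((hNm x).mul hcj)) B
      (fun w hw => (Complex.abs_im_le_norm _).trans (hnorm x w hw)) s
  have hint : ∀ f : ℂ → ℝ, Measurable f → (∃ c : ℝ, ∀ x, |f x| ≤ c) → IntegrableOn f P.Ω := by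
    rintro f hf ⟨c, hc⟩
    exact Measure.integrableOn_of_bounded (M := c) hvol.ne hf.aestronglyMeasurable
      (Filter.Eventually.of_forall fun x => by rw [Real.norm_eq_abs]; exact hc x)
  have hab : ∀ {c : ℝ} {t : ℝ}, 0 ≤ t → t ≤ c → |t| ≤ c := fun h h' => by rwa [abs_of_nonneg h]
  have ig : ∀ k, IntegrableOn (fun x => ‖md (gN N x) k‖ ^ 2) P.Ω := fun k => by
    obtain ⟨-, -, -, ⟨hm, hb⟩, -, -, -⟩ := hAB k
    exact hint _ (hm.norm.pow_const 2) ⟨C ^ 2, fun x => hab (by positivity)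
      (pow_le_pow_left₀ (norm_nonneg _) (hb x) 2)⟩
  have ih : ∀ k, IntegrableOn (fun x => ‖md (hN N x) k‖ ^ 2) P.Ω := fun k => by
    obtain ⟨-, -, -, -, ⟨hm, hb⟩, -, -⟩ := hAB k
    exact hint _ (hm.norm.pow_const 2) ⟨C ^ 2, fun x => hab (by positivity)
      (pow_le_pow_left₀ (norm_nonneg _) (hb x) 2)⟩
  have igh : ∀ k, IntegrableOn (fun x => ‖md (gN N x) k‖ * ‖md (hN N x) k‖) P.Ω := fun k => by
    obtain ⟨-, -, -, ⟨hm, hb⟩, ⟨hm', hb'⟩, -, -⟩ := hAB k
    exact hint _ (hm.norm.mul hm'.norm) ⟨C * C, fun x => hab (by positivity)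
      (mul_le_mul (hb x) (hb' x) (norm_nonneg _) hC0)⟩
  have iG : IntegrableOn (fun x => av fun w => gN N x w ^ 2) P.Ω := by
    obtain ⟨-, -, -, -, -, ⟨hm, hb⟩, -⟩ := hAB 0
    exact hint _ hm ⟨C, fun x => hab (hb x).1 (hb x).2⟩
  have iH : IntegrableOn (fun x => av fun w => hN N x w ^ 2) P.Ω := by
    obtain ⟨-, -, -, -, -, -, ⟨hm, hb⟩⟩ := hAB 0
    exact hint _ hm ⟨C, fun x => hab (hb x).1 (hb x).2⟩
  have e1 : ∑ k ∈ s, ∫ x in P.Ω, ‖md (gN N x) k‖ ^ 2 ≤ nrm P.Ω (gN N) := by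
    rw [← integral_finsetSum s (fun k _ => ig k)]
    exact setIntegral_mono (integrable_finsetSum s fun k _ => ig k) iG fun x => bg x
  have e2 : ∑ k ∈ s, ∫ x in P.Ω, ‖md (hN N x) k‖ ^ 2 ≤ nrm P.Ω (hN N) := by
    rw [← integral_finsetSum s (fun k _ => ih k)]
    exact setIntegral_mono (integrable_finsetSum s fun k _ => ih k) iH fun x => bh x
  have n1 : 0 ≤ nrm P.Ω (gN N) :=
    (Finset.sum_nonneg fun k _ => integral_nonneg fun x => by positivity).trans e1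
  have n2 : 0 ≤ nrm P.Ω (hN N) :=
    (Finset.sum_nonneg fun k _ => integral_nonneg fun x => by positivity).trans e2
  refine ⟨e1, e2, AQ_opt _ _ _ n1 n2 fun l hl => ?_⟩
  have h3 : ∀ k, 2 * l * ∫ x in P.Ω, ‖md (gN N x) k‖ * ‖md (hN N x) k‖ ≤
      l ^ 2 * (∫ x in P.Ω, ‖md (gN N x) k‖ ^ 2) + ∫ x in P.Ω, ‖md (hN N x) k‖ ^ 2 := by
    intro k
    rw [← integral_const_mul, ← integral_const_mul, ← integral_add ((ig k).const_mul _) (ih k)]
    refine setIntegral_mono ((igh k).const_mul _) (((ig k).const_mul _).add (ih k)) fun x => ?_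
    have := sq_nonneg (l * ‖md (gN N x) k‖ - ‖md (hN N x) k‖)
    simp only []
    nlinarith
  calc 2 * (∑ k ∈ s, ∫ x in P.Ω, ‖md (gN N x) k‖ * ‖md (hN N x) k‖) * l
      = ∑ k ∈ s, 2 * l * ∫ x in P.Ω, ‖md (gN N x) k‖ * ‖md (hN N x) k‖ := by
        rw [← Finset.mul_sum]; ring
    _ ≤ ∑ k ∈ s, (l ^ 2 * (∫ x in P.Ω, ‖md (gN N x) k‖ ^ 2) +
          ∫ x in P.Ω, ‖md (hN N x) k‖ ^ 2) := Finset.sum_le_sum fun k _ => h3 k
    _ = l ^ 2 * (∑ k ∈ s, ∫ x in P.Ω, ‖md (gN N x) k‖ ^ 2) +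
          ∑ k ∈ s, ∫ x in P.Ω, ‖md (hN N x) k‖ ^ 2 := by
        rw [Finset.sum_add_distrib, ← Finset.mul_sum]
    _ ≤ _ := add_le_add (mul_le_mul_of_nonneg_left e1 (by positivity)) e2

end Pool.Agent.H33.EG
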